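import Pool.Agent.Q17.WR.Stm

set_option autoImplicit false

/-!
Job LNK of project WR (helper17): homomorphisms from the free abelian group of rank two and commuting pairs.
-/

open scoped Classical

namespace Pool.Agent.Q65.WR

open Pool.Agent.Q17.WR Pool.Agent.Y63.KR Pool.Agent.Q18.KRX

/-- the homomorphism of a commuting pair -/
def hm {Γ : Type} [Group Γ] (a b : Γ) (h : a * b = b * a) : Z2 →* Γ where
  toFun l := a ^ (Multiplicative.toAdd l).1 * b ^ (Multiplicative.toAdd l).2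
  map_one' := by
    change a ^ (0 : ℤ) * b ^ (0 : ℤ) = 1
    simp
  map_mul' l k := by
    have hc : Commute a b := h
    have h1 : b ^ (Multiplicative.toAdd l).2 * a ^ (Multiplicative.toAdd k).1 =
        a ^ (Multiplicative.toAdd k).1 * b ^ (Multiplicative.toAdd l).2 := (hc.symm.zpow_zpow _ _).eq
    change a ^ ((Multiplicative.toAdd l).1 + (Multiplicative.toAdd k).1) *
      b ^ ((Multiplicative.toAdd l).2 + (Multiplicative.toAdd k).2) = _
    rw [zpow_add, zpow_add, mul_assoc, mul_assoc, ← mul_assoc (b ^ (Multiplicative.toAdd l).2), h1, mul_assoc]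

/-- the first generator -/
def g1 : Z2 := Multiplicative.ofAdd (1, 0)

/-- the second generator -/
def g2 : Z2 := Multiplicative.ofAdd (0, 1)

theorem z2_gen (l : Z2) : l = g1 ^ (Multiplicative.toAdd l).1 * g2 ^ (Multiplicative.toAdd l).2 := by
  rw [g1, g2, ← ofAdd_zsmul, ← ofAdd_zsmul, ← ofAdd_add]
  apply Multiplicative.toAdd.injective
  change _ = (Multiplicative.toAdd l).1 • ((1 : ℤ), (0 : ℤ)) + (Multiplicative.toAdd l).2 • ((0 : ℤ), (1 : ℤ))
  ext <;> simp

/-- homomorphisms and commuting pairs -/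
def eqv (Γ : Type) [Group Γ] : (Z2 →* Γ) ≃ {q : Γ × Γ // q.1 * q.2 = q.2 * q.1} where
  toFun ψ := ⟨(ψ g1, ψ g2), by
    change ψ g1 * ψ g2 = ψ g2 * ψ g1
    rw [← map_mul, ← map_mul, mul_comm]⟩
  invFun q := hm q.1.1 q.1.2 q.2
  left_inv ψ := by
    refine MonoidHom.ext fun l => ?_
    change ψ g1 ^ (Multiplicative.toAdd l).1 * ψ g2 ^ (Multiplicative.toAdd l).2 = ψ l
    rw [← map_zpow, ← map_zpow, ← map_mul, ← z2_gen]
  right_inv q := by
    apply Subtype.ext
    refine Prod.ext ?_ ?_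
    · change q.1.1 ^ (1 : ℤ) * q.1.2 ^ (0 : ℤ) = q.1.1
      simp
    · change q.1.1 ^ (0 : ℤ) * q.1.2 ^ (1 : ℤ) = q.1.2
      simp

theorem range_eqv {Γ : Type} [Group Γ] (ψ : Z2 →* Γ) :
    ψ.range = Subgroup.closure {(eqv Γ ψ).1.1, (eqv Γ ψ).1.2} := by
  apply le_antisymm
  · rintro _ ⟨l, rfl⟩
    rw [z2_gen l, map_mul, map_zpow, map_zpow]
    refine Subgroup.mul_mem _ (Subgroup.zpow_mem _ (Subgroup.subset_closure ?_) _)
      (Subgroup.zpow_mem _ (Subgroup.subset_closure ?_) _)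
    · exact Or.inl rfl
    · exact Or.inr rfl
  · rw [Subgroup.closure_le]
    rintro x (rfl | rfl)
    · exact ⟨g1, rfl⟩
    · exact ⟨g2, rfl⟩

theorem W_closure (p : ℕ) {Γ : Type} [Group Γ] (K : Set Γ) : W p (Subgroup.closure K : Set Γ) = W p K := by
  unfold W
  refine finsum_congr fun σ => ?_
  have h : (∀ P ∈ σ.1, ∀ x ∈ (Subgroup.closure K : Set Γ), conjSub x P = P) ↔
      ∀ P ∈ σ.1, ∀ x ∈ K, conjSub x P = P := by
    constructor
    · intro h P hP x hx
      exact h P hP x (Subgroup.subset_closure hx)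
    · intro h P hP x hx
      have h1 : Subgroup.closure K ≤ chainStabilizer σ.1 := by
        rw [Subgroup.closure_le]
        intro y hy
        exact mem_chainStabilizer.mpr fun Q hQ => h Q hQ y hy
      exact mem_chainStabilizer.mp (h1 hx) P hP
  by_cases h1 : ∀ P ∈ σ.1, ∀ x ∈ K, conjSub x P = P
  · rw [if_pos h1, if_pos (h.mpr h1)]
  · rw [if_neg h1, if_neg (fun h2 => h1 (h.mp h2))]

theorem t_LNK : S_LNK := by
  intro p _ Γ _ _
  have hfin : Finite (Z2 →* Γ) := Finite.of_equiv _ (eqv Γ).symm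
  refine ⟨hfin, ?_, eqv Γ, range_eqv⟩
  have : Fintype Γ := Fintype.ofFinite Γ
  have : Fintype (Z2 →* Γ) := Fintype.ofFinite _
  rw [card_mul_krSum, finsum_eq_sum_of_fintype, ← Finset.sum_filter]
  symm
  refine Finset.sum_bij (fun ψ _ => (eqv Γ ψ).1) ?_ ?_ ?_ ?_
  · intro ψ _
    rw [Finset.mem_filter]
    exact ⟨Finset.mem_univ _, (eqv Γ ψ).2⟩
  · intro ψ _ φ _ h
    exact (eqv Γ).injective (Subtype.ext h)
  · intro q hq
    rw [Finset.mem_filter] at hq
    exact ⟨(eqv Γ).symm ⟨q, hq.2⟩, Finset.mem_univ _, by rw [Equiv.apply_symm_apply]⟩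
  · intro ψ _
    rw [range_eqv ψ, W_closure]

end Pool.Agent.Q65.WR
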