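import Pool.Agent.Q17.WR.Stm

set_option autoImplicit false

/-!
Job CMB of project WR (helper17): sum over the stabilisers of functions.
-/

open scoped Classical

namespace Pool.Agent.Q65.WR

open Pool.Agent.Q17.WR Pool.Agent.Y63.KR Pool.Agent.Q18.KRX

theorem conj_map {A : Type} [Group A] (C : Subgroup A) (x : C) (P : Subgroup C) :
    conjSub (x : A) (P.map C.subtype) = (conjSub x P).map C.subtype := by
  unfold conjSub
  rw [Subgroup.map_map, Subgroup.map_map]
  rfl

/-- the chain of the images in the whole group -/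
theorem isPChain_map (p : ℕ) {A : Type} [Group A] (C : Subgroup A) (σ : Set (Subgroup C)) (h : IsPChain p σ) :
    IsPChain p ((fun P : Subgroup C => P.map C.subtype) '' σ) := by
  refine ⟨?_, ?_, ?_⟩
  · rintro _ ⟨P, hP, rfl⟩ _ ⟨Q, hQ, rfl⟩ _
    rcases h.chain.total hP hQ with h1 | h1
    · exact Or.inl (Subgroup.map_mono h1)
    · exact Or.inr (Subgroup.map_mono h1)
  · rintro _ ⟨P, hP, rfl⟩
    exact (h.isPGroup P hP).map _
  · rintro _ ⟨P, hP, rfl⟩ h1
    apply h.ne_bot P hP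
    apply Subgroup.map_injective C.subtype_injective
    rw [Subgroup.map_bot]
    exact h1

/-- the chain of the intersections -/
theorem isPChain_sub (p : ℕ) {A : Type} [Group A] (C : Subgroup A) (τ : Set (Subgroup A)) (h : IsPChain p τ)
    (hC : ∀ P ∈ τ, P ≤ C) :
    IsPChain p ((fun P : Subgroup A => P.subgroupOf C) '' τ) := by
  refine ⟨?_, ?_, ?_⟩
  · rintro _ ⟨P, hP, rfl⟩ _ ⟨Q, hQ, rfl⟩ _
    rcases h.chain.total hP hQ with h1 | h1
    · exact Or.inl (Subgroup.comap_mono h1)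
    · exact Or.inr (Subgroup.comap_mono h1)
  · rintro _ ⟨P, hP, rfl⟩
    exact (h.isPGroup P hP).comap_of_injective C.subtype C.subtype_injective
  · rintro _ ⟨P, hP, rfl⟩ h1
    apply h.ne_bot P hP
    have h2 := Subgroup.map_subgroupOf_eq_of_le (hC P hP)
    change P.subgroupOf C = ⊥ at h1
    rw [h1, Subgroup.map_bot] at h2
    exact h2.symm

theorem W_sub (p : ℕ) {A : Type} [Group A] [Finite A] (C : Subgroup A) (K : Set C) :
    W p K = WC p C (Subtype.val '' K) := by
  have : Fintype {σ : Set (Subgroup C) // IsPChain p σ} := Fintype.ofFinite _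
  have : Fintype {σ : Set (Subgroup A) // IsPChain p σ} := Fintype.ofFinite _
  unfold W WC
  rw [finsum_eq_sum_of_fintype, finsum_eq_sum_of_fintype]
  have hinj : Function.Injective (fun P : Subgroup C => P.map C.subtype) :=
    Subgroup.map_injective C.subtype_injective
  refine Finset.sum_of_injOn (fun σ => ⟨(fun P : Subgroup C => P.map C.subtype) '' σ.1, isPChain_map p C σ.1 σ.2⟩)
    ?_ ?_ ?_ ?_
  · intro σ _ τ _ h
    apply Subtype.ext
    exact hinj.image_injective (congrArg Subtype.val h)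
  · intro σ _
    simp
  · intro τ _ hτ
    rw [if_neg, mul_zero]
    rintro ⟨hC, -⟩
    apply hτ
    refine ⟨⟨(fun P : Subgroup A => P.subgroupOf C) '' τ.1, isPChain_sub p C τ.1 τ.2 hC⟩, by simp, ?_⟩
    apply Subtype.ext
    change (fun P : Subgroup C => P.map C.subtype) '' ((fun P : Subgroup A => P.subgroupOf C) '' τ.1) = τ.1
    rw [← Set.image_comp]
    ext P
    constructor
    · rintro ⟨R, hR, rfl⟩
      change (R.subgroupOf C).map C.subtype ∈ τ.1
      rw [Subgroup.map_subgroupOf_eq_of_le (hC R hR)]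
      exact hR
    · intro hP
      exact ⟨P, hP, Subgroup.map_subgroupOf_eq_of_le (hC P hP)⟩
  · intro σ _
    have hn : ((fun P : Subgroup C => P.map C.subtype) '' σ.1).ncard = σ.1.ncard :=
      Set.ncard_image_of_injective _ hinj
    have hiff : (∀ P ∈ σ.1, ∀ x ∈ K, conjSub x P = P) ↔
        ((∀ P ∈ (fun P : Subgroup C => P.map C.subtype) '' σ.1, P ≤ C) ∧
          Fx (Subtype.val '' K) ((fun P : Subgroup C => P.map C.subtype) '' σ.1)) := by
      constructor
      · intro h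
        refine ⟨?_, ?_⟩
        · rintro _ ⟨P, _, rfl⟩
          exact Subgroup.map_subtype_le P
        · rintro _ ⟨P, hP, rfl⟩ _ ⟨x, hx, rfl⟩
          change conjSub (x : A) (P.map C.subtype) = P.map C.subtype
          rw [conj_map, h P hP x hx]
      · rintro ⟨-, h⟩ P hP x hx
        apply hinj
        have h1 := h (P.map C.subtype) ⟨P, hP, rfl⟩ (x : A) ⟨x, hx, rfl⟩
        rw [conj_map] at h1
        exact h1
    change (-1 : ℤ) ^ σ.1.ncard * (if ∀ P ∈ σ.1, ∀ x ∈ K, conjSub x P = P then 1 else 0) =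
      (-1 : ℤ) ^ ((fun P : Subgroup C => P.map C.subtype) '' σ.1).ncard *
      (if (∀ P ∈ (fun P : Subgroup C => P.map C.subtype) '' σ.1, P ≤ C) ∧
          Fx (Subtype.val '' K) ((fun P : Subgroup C => P.map C.subtype) '' σ.1) then 1 else 0)
    rw [hn]
    by_cases h1 : ∀ P ∈ σ.1, ∀ x ∈ K, conjSub x P = P
    · rw [if_pos h1, if_pos (hiff.mp h1)]
    · rw [if_neg h1, if_neg (fun h2 => h1 (hiff.mpr h2))]

/-- homomorphisms into a subgroup -/
theorem sum_hom {A : Type} [Group A] (C : Subgroup A) [Fintype (Z2 →* A)] [Finite (Z2 →* C)]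
    (g : (Z2 →* A) → ℤ) :
    ∑ᶠ ψ : Z2 →* C, g (C.subtype.comp ψ) = ∑ φ : Z2 →* A, if φ.range ≤ C then g φ else 0 := by
  have : Fintype (Z2 →* C) := Fintype.ofFinite _
  rw [finsum_eq_sum_of_fintype]
  refine Finset.sum_of_injOn (fun ψ => C.subtype.comp ψ) ?_ ?_ ?_ ?_
  · intro ψ _ φ _ h
    ext l
    have := congrArg (fun f : Z2 →* A => f l) h
    exact this
  · intro ψ _
    simp
  · intro φ _ hφ
    rw [if_neg]
    intro h
    apply hφ
    refine ⟨φ.codRestrict C (fun l => h ⟨l, rfl⟩), by simp, ?_⟩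
    ext l
    rfl
  · intro ψ _
    rw [if_pos]
    rintro _ ⟨l, rfl⟩
    exact (ψ l).2

/-- the number of functions constant on the orbits of `S` -/
theorem card_const {A Ω X : Type} [Group A] [MulAction A Ω] [Finite A] [Finite Ω] [Finite X] (S : Subgroup A) :
    Nat.card {f : Ω → X // S ≤ Sf (A := A) f} = Nat.card X ^ norb Ω S := by
  unfold norb
  rw [← Nat.card_fun]
  refine Nat.card_congr ?_
  refine
    { toFun := fun f => Quotient.lift f.1 ?_
      invFun := fun g => ⟨fun ω => g (Quotient.mk _ ω), ?_⟩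
      left_inv := ?_
      right_inv := ?_ }
  · intro ω ω' h
    have h1 : ω ∈ MulAction.orbit S ω' := h
    obtain ⟨s, rfl⟩ := h1
    exact f.2 s.2 ω'
  · intro s hs ω
    change g (Quotient.mk _ (s • ω)) = g (Quotient.mk _ ω)
    congr 1
    apply Quotient.sound
    exact ⟨⟨s, hs⟩, rfl⟩
  · intro f
    rfl
  · intro g
    funext q
    induction q using Quotient.inductionOn with
    | h ω => rfl

theorem range_val {A : Type} [Group A] (C : Subgroup A) (ψ : Z2 →* C) :
    (Subtype.val '' (ψ.range : Set C)) = ((C.subtype.comp ψ).range : Set A) := by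
  ext x
  constructor
  · rintro ⟨_, ⟨l, rfl⟩, rfl⟩
    exact ⟨l, rfl⟩
  · rintro ⟨l, rfl⟩
    exact ⟨ψ l, ⟨l, rfl⟩, rfl⟩

theorem t_CMB : S_LNK → S_CMB := by
  intro hL p _ A Ω X _ _ _ _ _
  have hfA : Finite (Z2 →* A) := (hL p A).1
  have : Fintype (Z2 →* A) := Fintype.ofFinite _
  have : Fintype (Ω → X) := Fintype.ofFinite _
  have : Fintype {σ : Set (Subgroup A) // IsPChain p σ} := Fintype.ofFinite _
  -- the left side
  have h1 : ∀ f : Ω → X, (Nat.card (Sf (A := A) f) : ℤ) * krSum p (Sf (A := A) f) =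
      ∑ φ : Z2 →* A, ∑ τ : {τ : Set (Subgroup A) // IsPChain p τ},
        (-1 : ℤ) ^ τ.1.ncard * (if φ.range ≤ chainStabilizer τ.1 ∧ sSup τ.1 ⊔ φ.range ≤ Sf (A := A) f then 1 else 0) := by
    intro f
    have hf : Finite (Z2 →* Sf (A := A) f) := (hL p (Sf (A := A) f)).1
    rw [(hL p (Sf (A := A) f)).2.1]
    have h2 : ∀ ψ : Z2 →* Sf (A := A) f, W p (ψ.range : Set (Sf (A := A) f)) =
        (fun φ : Z2 →* A => WC p (Sf (A := A) f) (φ.range : Set A)) ((Sf (A := A) f).subtype.comp ψ) := by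
      intro ψ
      rw [W_sub, range_val]
    rw [finsum_congr h2, sum_hom (Sf (A := A) f) (fun φ : Z2 →* A => WC p (Sf (A := A) f) (φ.range : Set A))]
    refine Finset.sum_congr rfl fun φ _ => ?_
    by_cases h3 : φ.range ≤ Sf (A := A) f
    · rw [if_pos h3]
      unfold WC
      rw [finsum_eq_sum_of_fintype]
      refine Finset.sum_congr rfl fun τ _ => ?_
      congr 1
      have h4 : ((∀ P ∈ τ.1, P ≤ Sf (A := A) f) ∧ Fx (φ.range : Set A) τ.1) ↔
          (φ.range ≤ chainStabilizer τ.1 ∧ sSup τ.1 ⊔ φ.range ≤ Sf (A := A) f) := by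
        constructor
        · rintro ⟨h5, h6⟩
          refine ⟨fun x hx => mem_chainStabilizer.mpr fun P hP => h6 P hP x hx, sup_le (sSup_le h5) h3⟩
        · rintro ⟨h5, h6⟩
          refine ⟨fun P hP => (le_sSup hP).trans (le_sup_left.trans h6), fun P hP x hx =>
            mem_chainStabilizer.mp (h5 hx) P hP⟩
      by_cases h5 : φ.range ≤ chainStabilizer τ.1 ∧ sSup τ.1 ⊔ φ.range ≤ Sf (A := A) f
      · rw [if_pos h5, if_pos (h4.mpr h5)]
      · rw [if_neg h5, if_neg (fun h6 => h5 (h4.mp h6))]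
    · rw [if_neg h3]
      symm
      refine Finset.sum_eq_zero fun τ _ => ?_
      rw [if_neg, mul_zero]
      rintro ⟨-, h4⟩
      exact h3 (le_sup_right.trans h4)
  -- the right side
  have h2 : ∀ τ : {τ : Set (Subgroup A) // IsPChain p τ},
      ∑ᶠ α : Z2 →* chainStabilizer τ.1,
        (Nat.card X : ℤ) ^ norb Ω (sSup τ.1 ⊔ α.range.map (chainStabilizer τ.1).subtype) =
      ∑ φ : Z2 →* A, if φ.range ≤ chainStabilizer τ.1 then (Nat.card X : ℤ) ^ norb Ω (sSup τ.1 ⊔ φ.range) else 0 := by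
    intro τ
    have hf : Finite (Z2 →* chainStabilizer τ.1) := (hL p (chainStabilizer τ.1)).1
    rw [← sum_hom (chainStabilizer τ.1) (fun φ : Z2 →* A => (Nat.card X : ℤ) ^ norb Ω (sSup τ.1 ⊔ φ.range))]
    refine finsum_congr fun α => ?_
    rw [MonoidHom.range_comp]
  rw [finsum_congr h1, finsum_eq_sum_of_fintype, finsum_eq_sum_of_fintype, Finset.sum_comm]
  simp only [h2]
  have h3 : ∀ φ : Z2 →* A, ∑ f : Ω → X, ∑ τ : {τ : Set (Subgroup A) // IsPChain p τ},
      (-1 : ℤ) ^ τ.1.ncard * (if φ.range ≤ chainStabilizer τ.1 ∧ sSup τ.1 ⊔ φ.range ≤ Sf (A := A) f then 1 else 0) =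
      ∑ τ : {τ : Set (Subgroup A) // IsPChain p τ}, (-1 : ℤ) ^ τ.1.ncard *
        (if φ.range ≤ chainStabilizer τ.1 then (Nat.card X : ℤ) ^ norb Ω (sSup τ.1 ⊔ φ.range) else 0) := by
    intro φ
    rw [Finset.sum_comm]
    refine Finset.sum_congr rfl fun τ _ => ?_
    rw [← Finset.mul_sum]
    congr 1
    by_cases h4 : φ.range ≤ chainStabilizer τ.1
    · rw [if_pos h4]
      have h5 : (Nat.card X : ℤ) ^ norb Ω (sSup τ.1 ⊔ φ.range) =
          (Nat.card {f : Ω → X // sSup τ.1 ⊔ φ.range ≤ Sf (A := A) f} : ℤ) := by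
        rw [card_const]
        push_cast
        rfl
      rw [h5, Finset.sum_boole, Nat.card_eq_fintype_card, Fintype.card_subtype]
      congr 2
      ext f
      simp only [Finset.mem_filter, Finset.mem_univ, true_and]
      exact ⟨fun h => h.2, fun h => ⟨h4, h⟩⟩
    · rw [if_neg h4]
      refine Finset.sum_eq_zero fun f _ => ?_
      rw [if_neg]
      rintro ⟨h5, -⟩
      exact h4 h5
  rw [Finset.sum_congr rfl fun φ _ => h3 φ, Finset.sum_comm]
  refine Finset.sum_congr rfl fun τ _ => ?_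
  rw [← Finset.mul_sum]

end Pool.Agent.Q65.WR
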