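import Pool.Agent.Q17.WR.Stm

set_option autoImplicit false

/-!
Job LAT of project WR (helper17): a subgroup of finite index of the free abelian group of rank two is free of rank two.
-/

namespace Pool.Agent.Q65.WR

open Pool.Agent.Q17.WR

theorem t_LAT : S_LAT := by
  intro S hS
  let N : Submodule ℤ (ℤ × ℤ) := AddSubgroup.toIntSubmodule (Subgroup.toAddSubgroup' S)
  have hmem : ∀ x : ℤ × ℤ, x ∈ N ↔ Multiplicative.ofAdd x ∈ S := fun x => Iff.rfl
  have hi : S.index ≠ 0 := hS.index_ne_zero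
  have hn : ∀ x : ℤ × ℤ, (S.index : ℤ) • x ∈ N := by
    intro x
    rw [hmem, ofAdd_zsmul]
    have := Subgroup.pow_index_mem S (Multiplicative.ofAdd x)
    rw [zpow_natCast]
    exact this
  have h1 : Module.finrank ℤ (ℤ × ℤ) ≤ Module.finrank ℤ N := by
    refine LinearMap.finrank_le_finrank_of_injective
      (f := ((LinearMap.lsmul ℤ (ℤ × ℤ) (S.index : ℤ))).codRestrict N hn) ?_
    intro x y hxy
    have h2 : (S.index : ℤ) • x = (S.index : ℤ) • y := congrArg Subtype.val hxy
    have h3 : (S.index : ℤ) ≠ 0 := by exact_mod_cast hi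
    exact smul_right_injective (ℤ × ℤ) h3 h2
  have h2 : Module.finrank ℤ N ≤ Module.finrank ℤ (ℤ × ℤ) := Submodule.finrank_le N
  let e : N ≃ₗ[ℤ] (ℤ × ℤ) := LinearEquiv.ofFinrankEq _ _ (le_antisymm h2 h1)
  refine ⟨{
    toFun := fun s => Multiplicative.ofAdd (e ⟨Multiplicative.toAdd s.1, s.2⟩)
    invFun := fun z => ⟨Multiplicative.ofAdd (e.symm (Multiplicative.toAdd z)).1, (e.symm (Multiplicative.toAdd z)).2⟩
    left_inv := ?_
    right_inv := ?_
    map_mul' := ?_ }⟩
  · intro s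
    apply Subtype.ext
    change Multiplicative.ofAdd ((e.symm (e ⟨Multiplicative.toAdd s.1, s.2⟩)) : ℤ × ℤ) = s.1
    rw [e.symm_apply_apply]
    rfl
  · intro z
    change Multiplicative.ofAdd (e (e.symm (Multiplicative.toAdd z))) = z
    rw [e.apply_symm_apply]
    rfl
  · intro s t
    have h3 : e (⟨Multiplicative.toAdd s.1, s.2⟩ + ⟨Multiplicative.toAdd t.1, t.2⟩) =
        e ⟨Multiplicative.toAdd s.1, s.2⟩ + e ⟨Multiplicative.toAdd t.1, t.2⟩ := e.map_add _ _
    exact congrArg Multiplicative.ofAdd h3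

end Pool.Agent.Q65.WR
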